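import Pool.Agent.helper23.F2.Spec

/-!
# Row f2:MT8 of MP_26dbae_co (S07735): the edge objects
-/

set_option autoImplicit false

open scoped BigOperators

namespace Pool.Agent.F2

open Pool.Agent.helper23.TH

noncomputable section

open Classical

theorem MT8_am {V L : Type} {b s : ℕ} (G : LG V L b s) : (am G.A).transpose = am G.A := by
  ext u v
  simp only [Matrix.transpose_apply, am, Matrix.of_apply]
  by_cases h : G.A v u
  · rw [if_pos h, if_pos (G.symm _ _ h)]
  · rw [if_neg h, if_neg (fun h' => h (G.symm _ _ h'))]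

theorem MT8_AM {V L : Type} {b s : ℕ} (G : LG V L b s) (x : L) : (G.AM x).transpose = G.AM x := by
  ext u v
  simp only [Matrix.transpose_apply, LG.AM, Matrix.of_apply]
  by_cases h : G.A v u ∧ x ∈ G.le v u
  · rw [if_pos h, if_pos ⟨G.symm _ _ h.1, by rw [G.lsymm]; exact h.2⟩]
  · rw [if_neg h, if_neg (fun h' => h ⟨G.symm _ _ h'.1, by rw [G.lsymm]; exact h'.2⟩)]

theorem MT8 (hMT1 : MT1_stmt) (hMT4 : MT4_stmt) (hMT5 : MT5_stmt) : MT8_stmt := by
  intro V L _ _ b s G Δ hΔ t j
  have hA := MT8_am G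
  have hP := MT8_AM G
  have h4 := (hMT4 V L (am G.A) (fun x => G.AM x) hA hP j.1 (t - 1 - j.1)).1
  have e1 : j.1 + (t - 1 - j.1) = t - 1 := by have := j.2; omega
  rw [e1] at h4
  have hFF : G.FF t (.inr j) = ∑ x, nsq (am G.A ^ j.1 * G.AM x * am G.A ^ (t - 1 - j.1)) := rfl
  rw [hFF]
  refine h4.trans ?_
  obtain ⟨n, hn⟩ : ∃ n, n = t - 1 := ⟨_, rfl⟩
  rw [← hn]
  obtain ⟨Z, hZ⟩ : ∃ Z, Z = am G.A ^ (2 * n) := ⟨_, rfl⟩
  have hZs : ∀ u v, Z v u = Z u v := by
    intro u v
    have h : Z.transpose = Z := by rw [hZ, Matrix.transpose_pow, hA]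
    exact congrFun (congrFun h u) v
  obtain ⟨B, hB⟩ : ∃ B : Matrix V V ℝ, B = ∑ x, G.AM x * G.AM x := ⟨_, rfl⟩
  have hBa : ∀ u v, B u v = ∑ x, (G.AM x * G.AM x) u v := fun u v => by rw [hB, Matrix.sum_apply]
  have h0 : ∀ x u v, 0 ≤ G.AM x u v := by
    intro x u v
    simp only [LG.AM, Matrix.of_apply]
    split_ifs <;> norm_num
  have h1 : ∀ x, nsq (G.AM x * am G.A ^ n) = ∑ u, ∑ v, (G.AM x * G.AM x) u v * Z u v := by
    intro x
    have h := hMT1 V (am G.A) (G.AM x) hA (hP x) 0 n 0 n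
    rw [pow_zero, Matrix.one_mul, Matrix.mul_one, ← two_mul, ← hZ] at h
    have h2 : ip (G.AM x * am G.A ^ n) (G.AM x * am G.A ^ n) = nsq (G.AM x * am G.A ^ n) := by
      simp only [ip, nsq, sq]
    rw [← h2, h, Matrix.trace]
    refine Finset.sum_congr rfl fun u _ => ?_
    rw [Matrix.diag_apply, Matrix.mul_apply]
    exact Finset.sum_congr rfl fun v _ => by rw [hZs u v]
  have h5 : ∑ x, nsq (G.AM x * am G.A ^ n) = ∑ u, ∑ v, B u v * Z u v := by
    rw [Finset.sum_congr rfl fun x _ => h1 x, Finset.sum_comm]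
    refine Finset.sum_congr rfl fun u _ => ?_
    rw [Finset.sum_comm]
    refine Finset.sum_congr rfl fun v _ => ?_
    rw [hBa, Finset.sum_mul]
  have hBs : B.transpose = B := by
    rw [hB, Matrix.transpose_sum]
    exact Finset.sum_congr rfl fun x _ => by rw [Matrix.transpose_mul, hP]
  have hB0 : ∀ u v, 0 ≤ B u v := by
    intro u v
    rw [hBa]
    refine Finset.sum_nonneg fun x _ => ?_
    rw [Matrix.mul_apply]
    exact Finset.sum_nonneg fun w _ => mul_nonneg (h0 x u w) (h0 x w v)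
  have hrow : ∀ x w, ∑ v, G.AM x w v ≤ s := by
    intro x w
    have e : ∑ v, G.AM x w v = ((Finset.univ.filter fun v => G.A w v ∧ x ∈ G.le w v).card : ℝ) := by
      simp only [LG.AM, Matrix.of_apply]
      rw [Finset.sum_boole]
    rw [e]
    have := G.sp w x (Finset.univ.filter fun v => G.A w v ∧ x ∈ G.le w v) (by
      intro v hv
      rw [Finset.mem_filter] at hv
      exact ⟨hv.2.1, Or.inr hv.2.2⟩)
    exact_mod_cast this
  have hlab : ∀ u w, ∑ x, G.AM x u w ≤ b * am G.A u w := by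
    intro u w
    simp only [LG.AM, am, Matrix.of_apply]
    by_cases h : G.A u w
    · rw [if_pos h, mul_one]
      have e : ∑ x, (if G.A u w ∧ x ∈ G.le u w then (1 : ℝ) else 0) = ((G.le u w).card : ℝ) := by
        rw [Finset.sum_boole]
        congr 1
        congr 1
        ext x
        rw [Finset.mem_filter]
        exact ⟨fun h' => h'.2.2, fun h' => ⟨Finset.mem_univ _, h, h'⟩⟩
      rw [e]
      exact_mod_cast G.be u w
    · rw [if_neg h, mul_zero]
      refine (Finset.sum_eq_zero fun x _ => ?_).le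
      rw [if_neg fun h' => h h'.1]
  have hBrow : ∀ u, ∑ v, B u v ≤ b * s * Δ := by
    intro u
    have e2 : ∑ v, B u v = ∑ x, ∑ w, G.AM x u w * ∑ v, G.AM x w v := by
      simp only [hBa, Matrix.mul_apply]
      rw [Finset.sum_comm]
      refine Finset.sum_congr rfl fun x _ => ?_
      rw [Finset.sum_comm]
      exact Finset.sum_congr rfl fun w _ => by rw [Finset.mul_sum]
    rw [e2]
    have e3 : ∑ x, ∑ w, G.AM x u w * ∑ v, G.AM x w v ≤ ∑ x, ∑ w, G.AM x u w * s :=
      Finset.sum_le_sum fun x _ => Finset.sum_le_sum fun w _ => mul_le_mul_of_nonneg_left (hrow x w) (h0 x u w)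
    refine e3.trans ?_
    rw [Finset.sum_comm]
    have e4 : ∑ w, ∑ x, G.AM x u w * s ≤ ∑ w, (b * am G.A u w) * s := by
      refine Finset.sum_le_sum fun w _ => ?_
      rw [← Finset.sum_mul]
      exact mul_le_mul_of_nonneg_right (hlab u w) (Nat.cast_nonneg _)
    refine e4.trans ?_
    have e5 : ∑ w, am G.A u w = (dg G.A Finset.univ u : ℝ) := by
      simp only [am, Matrix.of_apply, dg]
      rw [Finset.sum_boole]
    have e6 : ∑ w, (b * am G.A u w) * s = b * s * (dg G.A Finset.univ u : ℝ) := by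
      rw [← e5, Finset.mul_sum]
      exact Finset.sum_congr rfl fun w _ => by ring
    rw [e6]
    exact mul_le_mul_of_nonneg_left (hΔ u) (by positivity)
  rw [h5, hZ]
  exact hMT5 V (am G.A) B (b * s * Δ) n hA hBs hB0 hBrow

end

end Pool.Agent.F2
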